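import Mathlib
import Pool.Agent.Helper305_AD.C

set_option autoImplicit false

/-!
# A finite basis for the `ℵ₁`-dense LOTS of countable character

Let `𝒞` be the class of all `ℵ₁`-dense linear orders in which every point has countable cofinality
and countable coinitiality (where these are defined), quasi-ordered by LOTS embeddability (strictly
increasing maps which are continuous for the order topologies). Suppose that the uncountable linear
orders have a basis with `n` elements (with respect to order embeddings), that Baumgartner's axiom
holds (any two `ℵ₁`-dense sets of reals are isomorphic) and that there is no Suslin line. Then `𝒞`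
has a basis with `n + 1` elements. By theorems of Moore, Baumgartner and Solovay and Tennenbaum the
Proper Forcing Axiom implies all three hypotheses, with `n = 5`.

For a linear order `τ` of cardinality `ℵ₁` let `K τ` be the set of all finitely supported sequences
in `τ + 1 + τ` (support: the entries different from the middle point) with the lexicographic order;
`K τ` is in `𝒞`. Given `L` in `𝒞`, choose an open interval `I` of `L` for which the set of those
`i < n` such that `F i` indexes a family of disjoint subintervals of `I` (in the order of `F i`) is
as small as possible. If this set has an element `i`, then all subintervals of `I` contain such a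
family, and `K (F i)` embeds into `L`. If it is empty, then `I` is ccc, so it is isomorphic to an
`ℵ₁`-dense set of reals.
-/

open Cardinal Set

namespace Pool.Agent.Results.MP_6f3246_lc.FiniteBasis

/-- `A` LOTS-embeds into `B`: there is a strictly increasing map which is continuous for the order
topologies. -/
def LOTSEmb (A B : Type) [LinearOrder A] [LinearOrder B] : Prop :=
  ∃ f : A → B, StrictMono f ∧ @Continuous A B (Preorder.topology A) (Preorder.topology B) f

/-- `L` is `ℵ₁`-dense: it has at least two points, and every open interval `(a, b)` with `a < b` has
cardinality exactly `ℵ₁`. -/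
def AlephOneDense (L : Type) [LinearOrder L] : Prop :=
  Nontrivial L ∧ ∀ a b : L, a < b → #(Ioo a b) = ℵ₁

/-- Every point `x` has countable cofinality and coinitiality, where they are defined: if `x` is the
supremum of a set of smaller elements, then it is the supremum of a countable set of smaller
elements, and dually. -/
def CountableCharacter (L : Type) [LinearOrder L] : Prop :=
  ∀ x : L, ((∃ S : Set L, S ⊆ Iio x ∧ IsLUB S x) → ∃ S : Set L, S ⊆ Iio x ∧ S.Countable ∧ IsLUB S x) ∧
    ((∃ S : Set L, S ⊆ Ioi x ∧ IsGLB S x) → ∃ S : Set L, S ⊆ Ioi x ∧ S.Countable ∧ IsGLB S x)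

/-- The class `𝒞`. -/
def InC (L : Type) [LinearOrder L] : Prop := AlephOneDense L ∧ CountableCharacter L

/-- The class `𝒞` has a basis indexed by `m` elements. -/
def HasBasis (m : ℕ) : Prop :=
  ∃ (B : Fin m → Type) (_ : ∀ i, LinearOrder (B i)), (∀ i, InC (B i)) ∧
    ∀ (L : Type) [LinearOrder L], InC L → ∃ i, LOTSEmb (B i) L

/-- The uncountable linear orders have a basis indexed by `n` elements, with respect to order
embeddings. -/
def UncountableHasBasis (n : ℕ) : Prop :=
  ∃ (F : Fin n → Type) (_ : ∀ i, LinearOrder (F i)), (∀ i, Uncountable (F i)) ∧
    ∀ (L : Type) [LinearOrder L], Uncountable L → ∃ i, Nonempty (F i ↪o L)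

/-- A set of reals is `ℵ₁`-dense if it meets every open interval in exactly `ℵ₁` points. -/
def AlephOneDenseReal (A : Set ℝ) : Prop := ∀ x y : ℝ, x < y → #(A ∩ Ioo x y : Set ℝ) = ℵ₁

/-- Baumgartner's axiom: any two `ℵ₁`-dense sets of reals are order isomorphic. -/
def BaumgartnerAxiom : Prop :=
  ∀ A B : Set ℝ, AlephOneDenseReal A → AlephOneDenseReal B → Nonempty (A ≃o B)

/-- Suslin's hypothesis: every linearly ordered space in which all families of pairwise disjoint
nonempty open sets are countable is separable. -/
def SuslinHypothesis : Prop :=
  ∀ (L : Type) [LinearOrder L] [TopologicalSpace L] [OrderTopology L],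
    (∀ 𝒰 : Set (Set L), (∀ U ∈ 𝒰, IsOpen U ∧ U.Nonempty) → 𝒰.PairwiseDisjoint id → 𝒰.Countable) →
    TopologicalSpace.SeparableSpace L

/-- If the uncountable linear orders have a basis with `n` elements, and Baumgartner's axiom and
Suslin's hypothesis hold, then the class `𝒞` has a basis with `n + 1` elements. -/
theorem result (n : ℕ) (hF : UncountableHasBasis n) (hBA : BaumgartnerAxiom)
    (hSH : SuslinHypothesis) : HasBasis (n + 1) := by
  obtain ⟨F, iF, h1, h2⟩ := hF
  exact Pool.Agent.Helper305.AD.main F ⟨h1, h2⟩ hBA hSH

end Pool.Agent.Results.MP_6f3246_lc.FiniteBasis
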